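import Pool.Agent.Q235.SN.MainN
import Pool.Agent.Q235.SZ.Push2

/-!
Project SP: compact families of thinly degenerate two-forms (closed or not) on a closed
`2 n`-manifold become nondegenerate after the addition of small exact forms.
-/

set_option autoImplicit false

open Set Filter Topology MeasureTheory
open scoped Manifold ContDiff

noncomputable section

namespace Pool.Agent.Q235.SP

open Pool.Agent.Y501.SYP
open Pool.Agent.Q235.SZ (SForm SmallFor addS zeroS addS_continuous Ex ex_zero ex_add)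
open Pool.Agent.Q235.SN

section

variable {d m : ℕ} {X : Type} [TopologicalSpace X] [ChartedSpace (ES d) X]
  [IsManifold 𝓘(ℝ, ES d) ∞ X]

/-- continuous maps to the space of forms are jointly continuous in the charts -/
theorem JC_of {B : Type} [TopologicalSpace B] {f : B → SForm (ES d) X} (hf : Continuous f) :
    JC (fun b => (f b).1) := by
  have hfd : FiniteDimensional ℝ (ES d) :=
    (EuclideanSpace.basisFun (Fin d) ℝ).toBasis.finiteDimensional_of_finite
  have hpr : ProperSpace (ES d) := FiniteDimensional.proper ℝ (ES d)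
  exact fun x₀ => Pool.Agent.Q235.SZ.joint hf x₀

theorem famJC {B : Type} [TopologicalSpace B] {f ρ : B → SForm (ES d) X} (hf : Continuous f)
    (hρ : Continuous ρ) (i k : Fin (m + 1)) :
    JC (fun q : ℝ × B => famF (m := m) (f q.2).1 (ρ q.2).1 q.1 i k) := by
  by_cases h1 : k < i
  · have : (fun q : ℝ × B => famF (m := m) (f q.2).1 (ρ q.2).1 q.1 i k) =
        fun q => (addS (f q.2) q.1 (ρ q.2)).1 := by
      funext q x
      exact if_pos h1
    rw [this]
    exact JC_of (addS_continuous (hf.comp continuous_snd) continuous_fst (hρ.comp continuous_snd))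
  · by_cases h2 : k = i
    · have : (fun q : ℝ × B => famF (m := m) (f q.2).1 (ρ q.2).1 q.1 i k) =
          fun q => (ρ q.2).1 := by
        funext q x
        exact (if_neg h1).trans (if_pos h2)
      rw [this]
      exact JC_of (hρ.comp continuous_snd)
    · have : (fun q : ℝ × B => famF (m := m) (f q.2).1 (ρ q.2).1 q.1 i k) =
          fun q => (f q.2).1 := by
        funext q x
        exact (if_neg h1).trans (if_neg h2)
      rw [this]
      exact JC_of (hf.comp continuous_snd)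

/-- the ratio for the top power -/
def rT (e : Module.Basis (Fin (m + 1) × Bool) ℝ (ES d)) (τ s : Form (ES d) X 2) (x : X) : ℝ :=
  ratN e τ (fun _ : Fin (m + 1) => s) x

/-- the ratio for the product with the first factor replaced -/
def rD (e : Module.Basis (Fin (m + 1) × Bool) ℝ (ES d)) (τ s η : Form (ES d) X 2) (x : X) : ℝ :=
  ratN e τ (Function.update (fun _ : Fin (m + 1) => s) 0 η) x

omit [IsManifold 𝓘(ℝ, ES d) ∞ X] in
theorem rD_eq (e : Module.Basis (Fin (m + 1) × Bool) ℝ (ES d)) (τ s η : Form (ES d) X 2)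
    (x : X) : rD e τ s η x =
      wedN (V := ES d) (Function.update (fun _ : Fin (m + 1) => s x) 0 (η x)) e /
        top (n := m + 1) (V := ES d) (τ x) e := by
  unfold rD ratN
  have h : (fun i : Fin (m + 1) => (Function.update (fun _ : Fin (m + 1) => s) 0 η) i x) =
      Function.update (fun _ : Fin (m + 1) => s x) 0 (η x) := by
    funext i
    by_cases hi : i = 0
    · subst hi
      rw [Function.update_self, Function.update_self]
    · rw [Function.update_of_ne hi, Function.update_of_ne hi]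
  exact congrArg (fun q => wedN (V := ES d) q e / top (n := m + 1) (V := ES d) (τ x) e) h

omit [IsManifold 𝓘(ℝ, ES d) ∞ X] in
theorem rD_add (e : Module.Basis (Fin (m + 1) × Bool) ℝ (ES d)) (τ s η θ : Form (ES d) X 2)
    (t : ℝ) (x : X) : rD e τ s (fun x => η x + t • θ x) x = rD e τ s η x + t * rD e τ s θ x := by
  rw [rD_eq, rD_eq, rD_eq]
  have h1 := wedN_add (m := m) (V := ES d) (s x) (η x) (t • θ x) e
  have h2 := wedN_smul (m := m) (V := ES d) (s x) (θ x) t e
  have h3 : wedN (V := ES d) (Function.update (fun _ : Fin (m + 1) => s x) 0 (η x + t • θ x)) e =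
      wedN (V := ES d) (Function.update (fun _ : Fin (m + 1) => s x) 0 (η x)) e +
      t * wedN (V := ES d) (Function.update (fun _ : Fin (m + 1) => s x) 0 (θ x)) e :=
    h1.trans (congrArg (fun r => wedN (V := ES d)
      (Function.update (fun _ : Fin (m + 1) => s x) 0 (η x)) e + r) h2)
  refine (congrArg (fun r => r / top (n := m + 1) (V := ES d) (τ x) e) h3).trans ?_
  rw [add_div, mul_div_assoc]

theorem rD_addS (e : Module.Basis (Fin (m + 1) × Bool) ℝ (ES d)) (τ s : Form (ES d) X 2)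
    (η θ : SForm (ES d) X) (t : ℝ) (x : X) :
    rD e τ s (addS η t θ).1 x = rD e τ s η.1 x + t * rD e τ s θ.1 x :=
  rD_add e τ s η.1 θ.1 t x

theorem rD_zeroS (e : Module.Basis (Fin (m + 1) × Bool) ℝ (ES d)) (τ s : Form (ES d) X 2)
    (x : X) : rD e τ s (zeroS (V := ES d) (X := X)).1 x = 0 := by
  rw [rD_eq]
  have h2 := wedN_smul (m := m) (V := ES d) (s x) (0 : (ES d) [⋀^Fin 2]→L[ℝ] ℝ) 0 e
  rw [zero_mul, smul_zero] at h2
  exact (congrArg (fun r => r / top (n := m + 1) (V := ES d) (τ x) e) h2).trans (zero_div _)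

theorem rT_cont (e : Module.Basis (Fin (m + 1) × Bool) ℝ (ES d)) {τ : SForm (ES d) X}
    (hτ : ∀ x, top (n := m + 1) (V := ES d) (τ.1 x) e ≠ 0) {B : Type} [TopologicalSpace B]
    {f : B → SForm (ES d) X} (hf : Continuous f) :
    Continuous fun q : B × X => rT e τ.1 (f q.1).1 q.2 :=
  ratN_cont (B := B) e τ.2 hτ (s := fun b => fun _ : Fin (m + 1) => (f b).1) (fun _ => JC_of hf)

theorem rD_cont (e : Module.Basis (Fin (m + 1) × Bool) ℝ (ES d)) {τ : SForm (ES d) X}
    (hτ : ∀ x, top (n := m + 1) (V := ES d) (τ.1 x) e ≠ 0) {B : Type} [TopologicalSpace B]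
    {f g : B → SForm (ES d) X} (hf : Continuous f) (hg : Continuous g) :
    Continuous fun q : B × X => rD e τ.1 (f q.1).1 (g q.1).1 q.2 := by
  refine ratN_cont (B := B) e τ.2 hτ
    (s := fun b => Function.update (fun _ : Fin (m + 1) => (f b).1) 0 (g b).1) (fun i => ?_)
  by_cases hi : i = 0
  · subst hi
    simp only [Function.update_self]
    exact JC_of hg
  · simp only [Function.update_of_ne hi]
    exact JC_of hf

/-- thinly degenerate forms, with respect to a frame of the model space -/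
structure GoodN (e : Module.Basis (Fin (m + 1) × Bool) ℝ (ES d)) (τ s : Form (ES d) X 2) :
    Prop where
  nn : ∀ x, 0 ≤ rT e τ s x
  ne : ∀ z ∈ {x | rT e τ s x = 0}, ∃ u : Fin m × Bool → ES d, top (n := m) (V := ES d) (s z) u ≠ 0
  small : ∀ z ∈ {x | rT e τ s x = 0}, SmallFor s (connectedComponentIn {x | rT e τ s x = 0} z) z

variable [CompactSpace X] [T2Space X]

/-- the local perturbation -/
theorem localFam (e : Module.Basis (Fin (m + 1) × Bool) ℝ (ES d)) {τ : SForm (ES d) X}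
    (hτ : ∀ x, top (n := m + 1) (V := ES d) (τ.1 x) e ≠ 0) {B : Type} [TopologicalSpace B]
    [CompactSpace B] [T2Space B] {f : B → SForm (ES d) X} (hf : Continuous f) (b₀ : B)
    (hb₀ : GoodN e τ.1 (f b₀).1) :
    ∃ (u : C(B, ℝ)) (η : SForm (ES d) X), Ex η ∧ u b₀ ≠ 0 ∧ (∀ b, 0 ≤ u b) ∧
      ∀ b : B, u b ≠ 0 → ∀ x, rT e τ.1 (f b).1 x = 0 → 0 < rD e τ.1 (f b).1 η.1 x := by
  obtain ⟨α, η, hα, hη, hαη, hηc, hpos⟩ := exists_pos e τ.2 hτ (f b₀).2
    {x | rT e τ.1 (f b₀).1 x = 0} rfl hb₀.ne hb₀.small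
  let η' : SForm (ES d) X := ⟨η, hη⟩
  have cA : Continuous fun q : B × X => rT e τ.1 (f q.1).1 q.2 := rT_cont e hτ hf
  have cB : Continuous fun q : B × X => rD e τ.1 (f q.1).1 η'.1 q.2 :=
    rD_cont (g := fun _ => η') e hτ hf continuous_const
  let bad : Set (B × X) := {q | rT e τ.1 (f q.1).1 q.2 = 0 ∧
    rD e τ.1 (f q.1).1 η'.1 q.2 ≤ 0}
  have hbad : IsClosed bad := (isClosed_eq cA continuous_const).inter
    (isClosed_le cB continuous_const)
  have hbad' : IsClosed (Prod.fst '' bad) := (hbad.isCompact.image continuous_fst).isClosed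
  have hσ₀ : b₀ ∉ Prod.fst '' bad := by
    rintro ⟨⟨σ, x⟩, ⟨h1, h2⟩, h3⟩
    have h4 : σ = b₀ := h3
    subst h4
    exact absurd (hpos x h1) (not_lt.2 h2)
  obtain ⟨u, hu0, hu1, hu01⟩ := exists_continuous_zero_one_of_isClosed hbad'
    (isClosed_singleton : IsClosed ({b₀} : Set B))
    (Set.disjoint_singleton_right.2 hσ₀)
  refine ⟨u, η', ⟨hηc, α, hα, hαη⟩, ?_, fun b => (hu01 b).1, fun b hb x hx => ?_⟩
  · have h1 : u b₀ = 1 := hu1 rfl
    rw [h1]
    exact one_ne_zero
  · by_contra hn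
    exact hb (hu0 ⟨(b, x), ⟨hx, not_lt.1 hn⟩, rfl⟩)

/-- the perturbing family -/
theorem family (e : Module.Basis (Fin (m + 1) × Bool) ℝ (ES d)) {τ : SForm (ES d) X}
    (hτ : ∀ x, top (n := m + 1) (V := ES d) (τ.1 x) e ≠ 0) {B : Type} [TopologicalSpace B]
    [CompactSpace B] [T2Space B] {f : B → SForm (ES d) X} (hf : Continuous f)
    (hfN : ∀ b, GoodN e τ.1 (f b).1) :
    ∃ ρ : B → SForm (ES d) X, Continuous ρ ∧ (∀ b, Ex (ρ b)) ∧
      ∀ (b : B) (x : X), rT e τ.1 (f b).1 x = 0 → 0 < rD e τ.1 (f b).1 (ρ b).1 x := by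
  have main : ∃ ρ : B → SForm (ES d) X, Continuous ρ ∧ (∀ b, Ex (ρ b)) ∧
      (∀ (b : B) (x : X), rT e τ.1 (f b).1 x = 0 → 0 ≤ rD e τ.1 (f b).1 (ρ b).1 x) ∧
      ∀ b ∈ (univ : Set B), ∀ x : X, rT e τ.1 (f b).1 x = 0 →
        0 < rD e τ.1 (f b).1 (ρ b).1 x := by
    refine (isCompact_univ : IsCompact (univ : Set B)).induction_on
      (p := fun S => ∃ ρ : B → SForm (ES d) X, Continuous ρ ∧ (∀ b, Ex (ρ b)) ∧
        (∀ (b : B) (x : X), rT e τ.1 (f b).1 x = 0 → 0 ≤ rD e τ.1 (f b).1 (ρ b).1 x) ∧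
        ∀ b ∈ S, ∀ x : X, rT e τ.1 (f b).1 x = 0 →
          0 < rD e τ.1 (f b).1 (ρ b).1 x) ?_ ?_ ?_ ?_
    · refine ⟨fun _ => zeroS, continuous_const, fun _ => ex_zero, fun b x _ => ?_,
        fun b hb => absurd hb (notMem_empty b)⟩
      rw [rD_zeroS]
    · rintro S T hST ⟨ρ, h1, h2, h3, h4⟩
      exact ⟨ρ, h1, h2, h3, fun σ hσ => h4 σ (hST hσ)⟩
    · rintro S T ⟨ρ, h1, h2, h3, h4⟩ ⟨ρ', h1', h2', h3', h4'⟩
      refine ⟨fun b => addS (ρ b) 1 (ρ' b), addS_continuous h1 continuous_const h1',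
        fun b => ex_add 1 (h2 b) (h2' b), fun b x hx => ?_, fun b hb x hx => ?_⟩
      · rw [rD_addS, one_mul]
        exact add_nonneg (h3 b x hx) (h3' b x hx)
      · rw [rD_addS, one_mul]
        rcases hb with h | h
        · exact add_pos_of_pos_of_nonneg (h4 b h x hx) (h3' b x hx)
        · exact add_pos_of_nonneg_of_pos (h3 b x hx) (h4' b h x hx)
    · intro b₀ _
      obtain ⟨u, η, hη, hu, hu0, hgood⟩ := localFam e hτ hf b₀ (hfN b₀)
      have hrat : ∀ (b : B) (x : X), rD e τ.1 (f b).1 (addS zeroS (u b) η).1 x =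
          u b * rD e τ.1 (f b).1 η.1 x := by
        intro b x
        rw [rD_addS, rD_zeroS, zero_add]
      refine ⟨{b | u b ≠ 0}, ?_, fun b => addS zeroS (u b) η,
        addS_continuous continuous_const u.continuous continuous_const,
        fun b => ex_add _ ex_zero hη, fun b x hx => ?_, fun b hb x hx => ?_⟩
      · exact mem_nhdsWithin_of_mem_nhds
          ((isOpen_ne_fun u.continuous continuous_const).mem_nhds hu)
      · rw [hrat]
        by_cases h : u b = 0
        · rw [h, zero_mul]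
        · exact mul_nonneg (hu0 b) (hgood b h x hx).le
      · rw [hrat]
        exact mul_pos (lt_of_le_of_ne (hu0 b) (Ne.symm hb)) (hgood b hb x hx)
  obtain ⟨ρ, h1, h2, _, h4⟩ := main
  exact ⟨ρ, h1, h2, fun b => h4 b (mem_univ b)⟩

/-- Compact families of thinly degenerate forms, closed or not, become nondegenerate, with the
right orientation, by the addition of small exact forms. -/
theorem push (e : Module.Basis (Fin (m + 1) × Bool) ℝ (ES d)) {τ : SForm (ES d) X}
    (hτ : ∀ x, top (n := m + 1) (V := ES d) (τ.1 x) e ≠ 0) {B : Type} [TopologicalSpace B]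
    [CompactSpace B] [T2Space B] {f : B → SForm (ES d) X} (hf : Continuous f)
    (hfN : ∀ b, GoodN e τ.1 (f b).1) :
    ∃ ρ : B → SForm (ES d) X, Continuous ρ ∧ (∀ b, Ex (ρ b)) ∧
      ∀ t : ℝ, 0 < t → t ≤ 1 → ∀ (b : B) (x : X), 0 < rT e τ.1 (addS (f b) t (ρ b)).1 x := by
  obtain ⟨ρ, hρ, hEx, hpos⟩ := family e hτ hf hfN
  have cA : Continuous fun q : B × X => rT e τ.1 (f q.1).1 q.2 := rT_cont e hτ hf
  obtain ⟨G, hG⟩ : ∃ G : (ℝ × B) × X → ℝ, G = fun q =>
      ∑ i, ratN e τ.1 (famF (m := m) (f q.1.2).1 (ρ q.1.2).1 q.1.1 i) q.2 := ⟨_, rfl⟩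
  have hg0 : Continuous G := by
    rw [hG]
    exact continuous_finsetSum _ fun i _ =>
      ratN_cont (B := ℝ × B) e τ.2 hτ
        (s := fun q => famF (m := m) (f q.2).1 (ρ q.2).1 q.1 i) (fun k => famJC hf hρ i k)
  have hval : ∀ (t : ℝ) (b : B) (x : X), G ((t, b), x) =
      ∑ i, ratN e τ.1 (famF (m := m) (f b).1 (ρ b).1 t i) x := fun t b x => congrFun hG _
  have hg : Continuous fun q : ℝ × (B × X) => G ((q.1, q.2.1), q.2.2) := by
    have h1 : Continuous fun q : ℝ × (B × X) => (((q.1, q.2.1), q.2.2) : (ℝ × B) × X) := by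
      fun_prop
    exact hg0.comp h1
  obtain ⟨t₀, ht₀, h6⟩ := exists_time (X := B × X)
      (g := fun q : ℝ × (B × X) => G ((q.1, q.2.1), q.2.2)) cA hg (fun q => (hfN q.1).nn q.2) (by
    rintro ⟨b, x⟩ hx
    have h1 := ratN_line0 (m := m) e τ.1 (f b).1 (ρ b).1 x
    refine lt_of_lt_of_eq ?_ ((hval 0 b x).trans h1).symm
    have := hpos b x hx
    unfold rD at this
    positivity)
  refine ⟨fun b => addS zeroS t₀ (ρ b),
    addS_continuous continuous_const continuous_const hρ, fun b => ex_add _ ex_zero (hEx b),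
    fun t ht ht1 b x => ?_⟩
  have h7 := h6 (t * t₀) (mul_pos ht ht₀) (by nlinarith) (b, x)
  have h8 := ratN_line (m := m) e τ.1 (f b).1 (ρ b).1 (t * t₀) x
  have h9 : (addS (f b) t (addS zeroS t₀ (ρ b))).1 = lineF (f b).1 (ρ b).1 (t * t₀) := by
    funext y
    change (f b).1 y + t • (0 + t₀ • (ρ b).1 y) = (f b).1 y + (t * t₀) • (ρ b).1 y
    rw [zero_add, smul_smul]
  rw [h9]
  refine lt_of_lt_of_eq h7 (Eq.trans ?_ h8.symm)
  exact congrArg (fun r => rT e τ.1 (f b).1 x + t * t₀ * r) (hval (t * t₀) b x)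

end

end Pool.Agent.Q235.SP
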